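import Pool.Agent.W645.WV.Stm

/-! Project WV: the frequency localised estimate in `L^2(dt)`. -/

set_option autoImplicit false

open MeasureTheory Set Complex
open scoped ENNReal

namespace Pool.Agent.W398.WV

open Pool.Agent.W203.BE (T gn ga al)
open Pool.Agent.W645.WV

lemma OS_cont {χ : ℝ → ℂ} (hχ : Continuous χ) (r : ℝ) : Continuous (OS χ r) := by
  have h1 : Continuous fun y : ℝ => ((r * Real.sqrt y : ℝ) : ℂ) :=
    Complex.continuous_ofReal.comp (continuous_const.mul Real.continuous_sqrt)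
  exact hχ.mul (Complex.continuous_exp.comp (continuous_const.mul h1))

lemma mass {L : ℝ} (hL : 1 ≤ L) : ∫⁻ s : ℝ, ENNReal.ofReal ((1 + (s / L) ^ 2)⁻¹) =
    ENNReal.ofReal (Real.pi * L) := by
  have hL0 : 0 < L := by linarith
  have h1 : Integrable fun s : ℝ => (1 + (s / L) ^ 2)⁻¹ :=
    integrable_inv_one_add_sq.comp_div hL0.ne'
  rw [← ofReal_integral_eq_lintegral_ofReal h1 (ae_of_all _ fun s => by positivity)]
  congr 1
  rw [Measure.integral_comp_div (fun x : ℝ => (1 + x ^ 2)⁻¹) L, integral_univ_inv_one_add_sq,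
    abs_of_pos hL0, smul_eq_mul, mul_comm]

lemma holder {L p : ℝ} (hL : 1 ≤ L) (hp : 2 ≤ p) {h : ℝ → ℂ} (hh : Measurable h) :
    (∫⁻ s : ℝ, ENNReal.ofReal ((1 + (s / L) ^ 2)⁻¹) * ‖h s‖ₑ ^ (2 : ℝ)) ^ (p / 2) ≤
      ENNReal.ofReal (Real.pi * L) ^ (p / 2 - 1) *
        ∫⁻ s : ℝ, ENNReal.ofReal ((1 + (s / L) ^ 2)⁻¹) * ‖h s‖ₑ ^ p := by
  set w : ℝ → ℝ≥0∞ := fun s => ENNReal.ofReal ((1 + (s / L) ^ 2)⁻¹) with hw
  have hwm : Measurable w := by
    rw [hw]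
    measurability
  set μ : Measure ℝ := (volume : Measure ℝ).withDensity w with hμ
  have e1 : ∀ q : ℝ, ∫⁻ s, ‖h s‖ₑ ^ q ∂μ = ∫⁻ s, w s * ‖h s‖ₑ ^ q := fun q => by
    rw [hμ, lintegral_withDensity_eq_lintegral_mul _ hwm (hh.enorm.pow_const q)]
    rfl
  have e2 : μ univ = ENNReal.ofReal (Real.pi * L) := by
    rw [hμ, withDensity_apply _ MeasurableSet.univ, Measure.restrict_univ]
    exact mass hL
  have e3 := eLpNorm'_le_eLpNorm'_mul_rpow_measure_univ (μ := μ) (p := 2) (q := p)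
    (by norm_num) hp (f := h) hh.aestronglyMeasurable
  rw [eLpNorm', eLpNorm', e1, e1, e2] at e3
  have e4 := ENNReal.rpow_le_rpow e3 (show 0 ≤ p by linarith)
  rw [ENNReal.mul_rpow_of_nonneg _ _ (by linarith), ← ENNReal.rpow_mul, ← ENNReal.rpow_mul,
    ← ENNReal.rpow_mul] at e4
  have hp0 : p ≠ 0 := by linarith
  have f1 : 1 / 2 * p = p / 2 := by ring
  have f2 : 1 / p * p = 1 := by field_simp
  have f3 : (1 / 2 - 1 / p) * p = p / 2 - 1 := by field_simp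
  rw [f1, f2, f3, ENNReal.rpow_one, mul_comm] at e4
  exact e4

theorem loc2 : S_KA → S_KM → S_KER → S_HB → S_REP → S_AVG → S_LOC2 := by
  intro hKA _ hKER hHB hREP hAVG n p hp2 hp4
  obtain ⟨CK, -, hKA⟩ := hKA
  obtain ⟨C2, hC2, hKER⟩ := hKER 2 le_rfl
  obtain ⟨CA, hCA, hAVG⟩ := hAVG n p hp2 hp4
  refine ⟨C2 ^ (p / 2) * Real.pi ^ (p / 2 - 1) * CA, by positivity, ?_⟩
  intro L hL N hN χ hχ σ hσ f hf hfi
  have hL0 : 0 < L := by linarith
  set κ : ℝ := (L ^ 2)⁻¹ with hκ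
  have hκ0 : 0 < κ := by positivity
  obtain ⟨hBm, K, hBK⟩ := hHB n κ hκ0 f hf hfi
  have hAV := (hAVG κ hκ0 f hf hfi).2 L hL
  -- the representation
  have hrep : ∀ a ∈ box n, ∀ x, ∀ t ∈ Icc (1 : ℝ) 2,
      IFT (fun ξ => OS χ (σ * t * L) (κ * H a ξ) * FT f ξ) x =
        ∫ s : ℝ, MK (OS χ (σ * t * L)) s * T (fun j => ga κ (a j) s) f x := by
    intro a ha x t ht
    refine hREP (OS χ (σ * t * L)) (OS_cont hχ.1.continuous _) ⟨8, fun y hy => ?_⟩ ?_ n κ hκ0 f hf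
      hfi a (fun j => ?_) x
    · have h1 : χ y ≠ 0 := by
        intro h
        apply hy
        unfold OS
        rw [h, zero_mul]
      obtain ⟨h2, h3⟩ := hχ.2.1 y h1
      rw [abs_le]
      constructor <;> linarith
    · obtain ⟨h1, h2⟩ := hKA L hL N hN χ hχ σ hσ t ht
      refine ⟨h1.aestronglyMeasurable, ?_⟩
      refine lt_of_le_of_lt ?_ (lt_of_le_of_lt h2 ENNReal.ofReal_lt_top)
      refine lintegral_mono fun s => ?_
      have h3 : (1 : ℝ≥0∞) ≤ ENNReal.ofReal (Real.sqrt (1 + (s / L) ^ 2)) := by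
        rw [← ENNReal.ofReal_one]
        refine ENNReal.ofReal_le_ofReal ?_
        rw [Real.one_le_sqrt]
        nlinarith [sq_nonneg (s / L)]
      calc ‖MK (OS χ (σ * t * L)) s‖ₑ = 1 * ‖MK (OS χ (σ * t * L)) s‖ₑ := (one_mul _).symm
        _ ≤ _ := mul_le_mul_left h3 _
    · have := ha.1 j
      simp only at this
      linarith
  -- the pointwise bound
  have hpt : ∀ a ∈ box n, ∀ x, (∫⁻ t in Icc (1 : ℝ) 2,
        ‖IFT (fun ξ => OS χ (σ * t * L) (κ * H a ξ) * FT f ξ) x‖ₑ ^ (2 : ℝ)) ^ (p / 2) ≤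
      ENNReal.ofReal (C2 ^ (p / 2) * Real.pi ^ (p / 2 - 1) * N ^ p * L⁻¹) *
        ∫⁻ s : ℝ, ENNReal.ofReal ((1 + (s / L) ^ 2)⁻¹) * ‖T (fun j => ga κ (a j) s) f x‖ₑ ^ p := by
    intro a ha x
    have hg : Measurable fun s : ℝ => (((a, s), x) : ((Fin n → ℝ) × ℝ) × (Fin n → ℝ)) :=
      (measurable_const.prodMk measurable_id).prodMk measurable_const
    have hh : Measurable fun s : ℝ => T (fun j => ga κ (a j) s) f x := by
      have h1 := hBm.comp hg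
      exact h1
    have e1 : ∫⁻ t in Icc (1 : ℝ) 2,
        ‖IFT (fun ξ => OS χ (σ * t * L) (κ * H a ξ) * FT f ξ) x‖ₑ ^ (2 : ℝ) =
        ∫⁻ t in Icc (1 : ℝ) 2,
        ‖∫ s : ℝ, MK (OS χ (σ * t * L)) s * T (fun j => ga κ (a j) s) f x‖ₑ ^ (2 : ℝ) := by
      refine setLIntegral_congr_fun measurableSet_Icc fun t ht => ?_
      show ‖IFT (fun ξ => OS χ (σ * t * L) (κ * H a ξ) * FT f ξ) x‖ₑ ^ (2 : ℝ) = _
      rw [hrep a ha x t ht]
    have e2 := hKER L hL N hN χ hχ σ hσ (fun s => T (fun j => ga κ (a j) s) f x) hh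
      ⟨K, fun s => hBK a ha s x⟩
    have e3 : ∀ s : ℝ, ENNReal.ofReal ((1 + (s / L) ^ 2) ^ (-((2 : ℝ) / 2))) =
        ENNReal.ofReal ((1 + (s / L) ^ 2)⁻¹) := by
      intro s
      rw [show (-((2 : ℝ) / 2)) = -1 by norm_num, Real.rpow_neg_one]
    simp only [e3] at e2
    rw [e1]
    refine (ENNReal.rpow_le_rpow e2 (by linarith)).trans ?_
    rw [ENNReal.mul_rpow_of_nonneg _ _ (by linarith)]
    refine (mul_le_mul_right (holder hL hp2 hh) _).trans ?_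
    rw [← mul_assoc]
    refine mul_le_mul_left (le_of_eq ?_) _
    rw [ENNReal.ofReal_rpow_of_nonneg (by positivity) (by linarith),
      ENNReal.ofReal_rpow_of_nonneg (by positivity) (by linarith),
      ← ENNReal.ofReal_mul (by positivity)]
    congr 1
    have f1 : (C2 * N ^ (2 : ℝ) * L ^ ((2 : ℝ) / 2 - 2)) ^ (p / 2) =
        C2 ^ (p / 2) * N ^ p * L ^ (-(p / 2)) := by
      rw [Real.mul_rpow (by positivity) (by positivity), Real.mul_rpow hC2.le (by positivity),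
        ← Real.rpow_mul hN.le, ← Real.rpow_mul hL0.le]
      congr 2
      · congr 1; ring
      · ring
    have f2 : (Real.pi * L) ^ (p / 2 - 1) = Real.pi ^ (p / 2 - 1) * L ^ (p / 2 - 1) :=
      Real.mul_rpow Real.pi_pos.le hL0.le
    have f3 : L ^ (-(p / 2)) * L ^ (p / 2 - 1) = L⁻¹ := by
      rw [← Real.rpow_add hL0, show -(p / 2) + (p / 2 - 1) = -1 by ring, Real.rpow_neg_one]
    rw [f1, f2]
    calc C2 ^ (p / 2) * N ^ p * L ^ (-(p / 2)) * (Real.pi ^ (p / 2 - 1) * L ^ (p / 2 - 1))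
        = C2 ^ (p / 2) * Real.pi ^ (p / 2 - 1) * N ^ p * (L ^ (-(p / 2)) * L ^ (p / 2 - 1)) := by
          ring
      _ = _ := by rw [f3]
  calc ∫⁻ a in box n, ∫⁻ x, (∫⁻ t in Icc (1 : ℝ) 2,
        ‖IFT (fun ξ => OS χ (σ * t * L) (κ * H a ξ) * FT f ξ) x‖ₑ ^ (2 : ℝ)) ^ (p / 2)
      ≤ ∫⁻ a in box n, ENNReal.ofReal (C2 ^ (p / 2) * Real.pi ^ (p / 2 - 1) * N ^ p * L⁻¹) *
        ∫⁻ x, ∫⁻ s : ℝ, ENNReal.ofReal ((1 + (s / L) ^ 2)⁻¹) *
          ‖T (fun j => ga κ (a j) s) f x‖ₑ ^ p := by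
        refine setLIntegral_mono' measurableSet_Icc fun a ha => ?_
        rw [← lintegral_const_mul' _ _ ENNReal.ofReal_ne_top]
        exact lintegral_mono fun x => hpt a ha x
    _ = ENNReal.ofReal (C2 ^ (p / 2) * Real.pi ^ (p / 2 - 1) * N ^ p * L⁻¹) *
        ∫⁻ a in box n, ∫⁻ x, ∫⁻ s : ℝ, ENNReal.ofReal ((1 + (s / L) ^ 2)⁻¹) *
          ‖T (fun j => ga κ (a j) s) f x‖ₑ ^ p :=
        lintegral_const_mul' _ _ ENNReal.ofReal_ne_top
    _ ≤ ENNReal.ofReal (C2 ^ (p / 2) * Real.pi ^ (p / 2 - 1) * N ^ p * L⁻¹) *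
        (ENNReal.ofReal (CA * L * (1 + Real.log L) ^ n) * ∫⁻ x, ‖f x‖ₑ ^ p) :=
        mul_le_mul_right hAV _
    _ = _ := by
        have hlog : 0 ≤ Real.log L := Real.log_nonneg hL
        rw [← mul_assoc, ← ENNReal.ofReal_mul (by positivity)]
        congr 2
        field_simp

end Pool.Agent.W398.WV
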